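import Mathlib
import Pool.Agent.Lib.MP_63c848_lc.Finite

set_option autoImplicit false

/-!
For all `N`, `T` and `w ≥ 1`, the number of `n ≤ N` such that `U_t(n) ≤ U_s(n)` for some
`1 ≤ s < t ≤ min (T, n / 2)` with `t - s ≥ 2 w - 1` is at most
`2 T (T + w) ⌈log₂ (N + w)⌉ / w`.
-/

open Classical in
theorem Pool.Agent.Results.MP_63c848_lc.AlmostAll.result :
    ∀ U : ℕ → ℕ → ℕ,
      (∀ n t : ℕ, U n t = sInf {k : ℕ | ∃ q : List Bool → Fin n × Fin n,
        ∀ σ τ : Equiv.Perm (Fin n), ∀ h : List Bool, h.length = k →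
          (∀ i < k, h.getD i false = decide (σ (q (h.take i)).1 < σ (q (h.take i)).2)) →
          (∀ i < k, h.getD i false = decide (τ (q (h.take i)).1 < τ (q (h.take i)).2)) →
          Finset.univ.filter (fun x : Fin n => n - t ≤ ((σ x : Fin n) : ℕ)) =
            Finset.univ.filter (fun x : Fin n => n - t ≤ ((τ x : Fin n) : ℕ))}) →
      ∀ N T w : ℕ, 1 ≤ w →
        w * ((Finset.Icc 1 N).filter (fun n : ℕ => ∃ s t : ℕ, 1 ≤ s ∧ s < t ∧ t ≤ T ∧
          2 * t ≤ n ∧ 2 * w ≤ t - s + 1 ∧ U n t ≤ U n s)).card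
        ≤ 2 * T * (T + w) * Nat.clog 2 (N + w) := by
  intro U hU N T w hw
  have hU' : ∀ n t : ℕ, U n t = sInf {k : ℕ | Pool.Sel63c848.Works n t k} := hU
  refine le_trans (Nat.mul_le_mul_left w (Finset.card_le_card ?_))
    (Pool.Sel63c848.bad_card (N := N) (T := T) (w := w) hw)
  intro n hn
  unfold Pool.Sel63c848.Bad
  rw [Finset.mem_filter, Finset.mem_Icc] at *
  obtain ⟨⟨h1, h2⟩, s, t, h3, h4, h5, h6, h7, h8⟩ := hn
  refine ⟨⟨h1, h2⟩, s, t, h3, h4, h5, h6, h7, ?_⟩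
  rw [← Pool.Sel63c848.U_eq hU' h1, ← Pool.Sel63c848.U_eq hU' h1]
  exact h8
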